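import Pool.Agent.Helper62.CX.Stm
import Pool.Agent.Helper90.BW.Irr

/-!
# C_Irr, C_Bil, C_IrrHalf: the forms of the irreducibility
-/

set_option autoImplicit false
set_option linter.unusedSectionVars false

open Polynomial Matrix Finset

namespace Pool.Agent.Helper90.CX

open Pool.Agent.Helper62.BM Pool.Agent.Helper62.BW Pool.Agent.Helper62.BX Pool.Agent.Helper62.CX
open Pool.Agent.Helper90.BW (pol pol_coeff pol_mem pol_coeff_ge pol_eq pol_surj pol_inj coeff_dE)

section conn

variable {k : Type} [Field k] [CharZero k] {m r na nb N : ℕ}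
  {a b : k[X][X]} {D : Cdat k N} {P S : Fin N → k[X][X]}
  {E : Type} [Field E] [Algebra (KX k) E]

/-- the embedding of the coefficients -/
noncomputable abbrev th (k : Type) [Field k] (E : Type) [Field E] [Algebra (KX k) E] :
    k[X] →+* E := (algebraMap (KX k) E).comp (ι k)

/-- the relation -/
def Rl (m r : ℕ) (a b : k[X][X]) (P S u : E[X]) : Prop :=
  (m : E[X]) * P * ((a * b).map ((algebraMap (KX k) E).comp (ι k))) +
    S * (Lam m r a b (derivative a) (derivative b)).map ((algebraMap (KX k) E).comp (ι k)) =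
    u * (Lam m r a b (dt a) (dt b)).map ((algebraMap (KX k) E).comp (ι k))

theorem th_inj : Function.Injective (th k E) :=
  (algebraMap (KX k) E).injective.comp (IsFractionRing.injective k[X] (KX k))

theorem W_ne (hOk : D.Ok) : D.W ≠ 0 := by
  have hw : D.w.eval D.c ≠ 0 := hOk.1
  refine mul_ne_zero (X_sub_C_ne_zero _) ?_
  intro h
  rw [h, eval_zero] at hw
  exact hw rfl

theorem sol (hN : 1 ≤ N) (hF : FamC m r na nb a b D P S) (hOk : D.Ok) (δ : Der E)
    (u : Fin N → E) : ∃ P0 S0 : E[X], P0.natDegree < N ∧ S0.natDegree ≤ N ∧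
      Rl m r a b P0 S0 (pol E N u) ∧
      dE δ (pol E N u) - P0 - derivative S0 =
        pol E N ((fun i => δ (u i)) + (D.B.map (algebraMap (KX k) E)) *ᵥ u) := by
  obtain ⟨-, -, hR, hDM⟩ := hF
  have hθW : th k E D.W ≠ 0 := (map_ne_zero_iff _ th_inj).2 (W_ne hOk)
  set θ : k[X] →+* E := th k E with hθ
  have hrel : ∀ l : Fin N, (m : E[X]) * (P l).map θ * ((a * b).map θ) +
      (S l).map θ * (Lam m r a b (derivative a) (derivative b)).map θ =
      Polynomial.C (θ D.W) * X ^ (l : ℕ) * (Lam m r a b (dt a) (dt b)).map θ := by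
    intro l
    have h3 := congrArg (fun q => Polynomial.map θ q) (hR l).2.2
    simp only [Polynomial.map_mul, Polynomial.map_add, Polynomial.map_pow, Polynomial.map_X,
      Polynomial.map_C, Polynomial.map_natCast] at h3
    rw [Polynomial.map_mul]
    exact h3
  set P0 : E[X] := ∑ l, Polynomial.C (u l * (θ D.W)⁻¹) * (P l).map θ with hP0
  set S0 : E[X] := ∑ l, Polynomial.C (u l * (θ D.W)⁻¹) * (S l).map θ with hS0
  have dP0 : P0.natDegree ≤ N - 1 := by
    refine natDegree_sum_le_of_forall_le _ _ fun l _ => (natDegree_C_mul_le _ _).trans ?_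
    have := (hR l).1
    exact natDegree_map_le.trans (by omega)
  have dS0 : S0.natDegree ≤ N := by
    refine natDegree_sum_le_of_forall_le _ _ fun l _ => (natDegree_C_mul_le _ _).trans ?_
    exact natDegree_map_le.trans (hR l).2.1
  refine ⟨P0, S0, by omega, dS0, ?_, ?_⟩
  · show (m : E[X]) * P0 * ((a * b).map θ) +
      S0 * (Lam m r a b (derivative a) (derivative b)).map θ =
      pol E N u * (Lam m r a b (dt a) (dt b)).map θ
    rw [hP0, hS0, Finset.mul_sum, Finset.sum_mul, Finset.sum_mul, ← Finset.sum_add_distrib,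
      pol_eq, Finset.sum_mul]
    refine Finset.sum_congr rfl fun l _ => ?_
    have e1 : (m : E[X]) * (Polynomial.C (u l * (θ D.W)⁻¹) * (P l).map θ) * ((a * b).map θ) +
        Polynomial.C (u l * (θ D.W)⁻¹) * (S l).map θ *
          (Lam m r a b (derivative a) (derivative b)).map θ =
        Polynomial.C (u l * (θ D.W)⁻¹) * ((m : E[X]) * (P l).map θ * ((a * b).map θ) +
          (S l).map θ * (Lam m r a b (derivative a) (derivative b)).map θ) := by ring
    rw [e1, hrel, ← mul_assoc, ← mul_assoc, ← C_mul, mul_assoc (u l), inv_mul_cancel₀ hθW,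
      mul_one]
  · ext j
    rw [coeff_sub, coeff_sub, coeff_dE, coeff_derivative]
    rcases lt_or_ge j N with hm | hm
    · have e1 := pol_coeff E N u ⟨j, hm⟩
      have e2 := pol_coeff E N ((fun i => δ (u i)) +
        (D.B.map (algebraMap (KX k) E)) *ᵥ u) ⟨j, hm⟩
      simp only at e1 e2
      rw [e1, e2, Pi.add_apply, Matrix.mulVec, dotProduct, hP0, hS0, finsetSum_coeff,
        finsetSum_coeff, Finset.sum_mul, sub_sub, ← Finset.sum_add_distrib,
        sub_eq_add_neg, ← Finset.sum_neg_distrib]
      congr 1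
      refine Finset.sum_congr rfl fun l _ => ?_
      have e3 : algebraMap (KX k) E (D.B ⟨j, hm⟩ l) = θ (D.M ⟨j, hm⟩ l) * (θ D.W)⁻¹ := by
        unfold Cdat.B
        rw [Matrix.of_apply, map_mul, map_inv₀]
        rfl
      have e4 : D.M ⟨j, hm⟩ l = -((P l).coeff j + (S l).coeff (j + 1) * ((j : k[X]) + 1)) := by
        rw [hDM, Mc, Matrix.of_apply, coeff_add, coeff_derivative]
      rw [Matrix.map_apply, e3, e4, coeff_C_mul, coeff_C_mul, coeff_map, coeff_map,
        map_neg, map_add, map_mul, map_add, map_natCast, map_one]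
      ring
    · have e1 := pol_coeff_ge E N u hm
      have e2 := pol_coeff_ge E N ((fun i => δ (u i)) +
        (D.B.map (algebraMap (KX k) E)) *ᵥ u) hm
      rw [e1, e2, map_zero, coeff_eq_zero_of_natDegree_lt (p := P0) (by omega),
        coeff_eq_zero_of_natDegree_lt (p := S0) (by omega)]
      ring

theorem uniq (hr : 0 < r) (hrm : r < m) (hF : FamC m r na nb a b D P S)
    {P1 S1 P2 S2 u : E[X]} (h1 : S1.natDegree ≤ N) (h2 : S2.natDegree ≤ N)
    (e1 : Rl m r a b P1 S1 u) (e2 : Rl m r a b P2 S2 u) : P1 = P2 ∧ S1 = S2 := by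
  obtain ⟨⟨ham, hbm, had, hbd, hsep⟩, hN, -, -⟩ := hF
  unfold Rl at e1 e2
  have hchar : CharZero E := charZero_of_injective_ringHom (algebraMap (KX k) E).injective
  set θ : k[X] →+* E := th k E with hθ
  have hmE : (m : E) ≠ 0 := by
    have : m ≠ 0 := by omega
    exact_mod_cast this
  have hrE : (r : E) ≠ 0 := by
    have : r ≠ 0 := by omega
    exact_mod_cast this
  have hmrE : ((m - r : ℕ) : E) ≠ 0 := by
    have : m - r ≠ 0 := by omega
    exact_mod_cast this
  have hsepE : ((a * b).map θ).Separable := by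
    have h3 : (a * b).map θ = ((a * b).map (ι k)).map (algebraMap (KX k) E) := by
      rw [hθ, th, Polynomial.map_map]
    rw [h3]
    have h4 : ((a * b).map (ι k)).Separable := hsep
    exact h4.map
  have habm : ((a * b).map θ).Monic := (ham.mul hbm).map _
  have habd : ((a * b).map θ).natDegree = N + 1 := by
    rw [(ham.mul hbm).natDegree_map, ham.natDegree_mul hbm, had, hbd, hN]
  have hsep2 : (a.map θ * b.map θ).Separable := by
    rw [← Polynomial.map_mul]
    exact hsepE
  have cab : IsCoprime (a.map θ) (b.map θ) := hsep2.isCoprime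
  have ca : IsCoprime (a.map θ) (derivative (a.map θ)) := hsep2.of_mul_left
  have cb : IsCoprime (b.map θ) (derivative (b.map θ)) := hsep2.of_mul_right
  have hur : IsUnit (r : E[X]) := by
    rw [← Polynomial.C_eq_natCast]
    exact isUnit_C.2 (isUnit_iff_ne_zero.2 hrE)
  have humr : IsUnit ((m - r : ℕ) : E[X]) := by
    rw [← Polynomial.C_eq_natCast]
    exact isUnit_C.2 (isUnit_iff_ne_zero.2 hmrE)
  have hLam : (Lam m r a b (derivative a) (derivative b)).map θ =
      (r : E[X]) * derivative (a.map θ) * b.map θ +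
        ((m - r : ℕ) : E[X]) * a.map θ * derivative (b.map θ) := by
    unfold Lam
    simp only [Polynomial.map_add, Polynomial.map_mul, Polynomial.map_natCast, derivative_map]
  have hcop : IsCoprime ((a * b).map θ)
      ((Lam m r a b (derivative a) (derivative b)).map θ) := by
    rw [hLam, Polynomial.map_mul]
    refine IsCoprime.mul_left ?_ ?_
    · have h3 : IsCoprime (a.map θ) ((r : E[X]) * derivative (a.map θ) * b.map θ) := by
        rw [mul_assoc]
        exact (isCoprime_mul_unit_left_right hur _ _).2 (ca.mul_right cab)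
      have h4 : (r : E[X]) * derivative (a.map θ) * b.map θ +
          ((m - r : ℕ) : E[X]) * a.map θ * derivative (b.map θ) =
          (r : E[X]) * derivative (a.map θ) * b.map θ +
          a.map θ * (((m - r : ℕ) : E[X]) * derivative (b.map θ)) := by ring
      rw [h4]
      exact h3.add_mul_left_right _
    · have h3 : IsCoprime (b.map θ) (((m - r : ℕ) : E[X]) * (a.map θ * derivative (b.map θ))) :=
        (isCoprime_mul_unit_left_right humr _ _).2 (cab.symm.mul_right cb)
      have h4 : (r : E[X]) * derivative (a.map θ) * b.map θ +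
          ((m - r : ℕ) : E[X]) * a.map θ * derivative (b.map θ) =
          ((m - r : ℕ) : E[X]) * (a.map θ * derivative (b.map θ)) +
          b.map θ * ((r : E[X]) * derivative (a.map θ)) := by ring
      rw [h4]
      exact h3.add_mul_left_right _
  have hdiff : (m : E[X]) * (P1 - P2) * ((a * b).map θ) +
      (S1 - S2) * (Lam m r a b (derivative a) (derivative b)).map θ = 0 := by
    have h3 : (m : E[X]) * (P1 - P2) * ((a * b).map θ) +
        (S1 - S2) * (Lam m r a b (derivative a) (derivative b)).map θ =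
        ((m : E[X]) * P1 * ((a * b).map θ) +
          S1 * (Lam m r a b (derivative a) (derivative b)).map θ) -
        ((m : E[X]) * P2 * ((a * b).map θ) +
          S2 * (Lam m r a b (derivative a) (derivative b)).map θ) := by ring
    rw [h3]
    exact sub_eq_zero.2 (e1.trans e2.symm)
  have hS : S1 - S2 = 0 := by
    by_contra hne
    have h4 : (a * b).map θ ∣ (S1 - S2) * (Lam m r a b (derivative a) (derivative b)).map θ :=
      ⟨-((m : E[X]) * (P1 - P2)), by linear_combination hdiff⟩
    have h5 : (a * b).map θ ∣ S1 - S2 := IsCoprime.dvd_of_dvd_mul_right hcop h4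
    have h6 := natDegree_le_of_dvd h5 hne
    have h7 : (S1 - S2).natDegree ≤ N := (natDegree_sub_le _ _).trans (max_le h1 h2)
    omega
  rw [hS, zero_mul, add_zero] at hdiff
  have hmX : (m : E[X]) ≠ 0 := by
    rw [← Polynomial.C_eq_natCast]
    exact C_ne_zero.2 hmE
  have hP : P1 - P2 = 0 := by
    have h3 := (mul_eq_zero.1 hdiff).resolve_right habm.ne_zero
    exact (mul_eq_zero.1 h3).resolve_left hmX
  exact ⟨sub_eq_zero.1 hP, sub_eq_zero.1 hS⟩

end conn

/-- **C16.** -/
theorem c_irr : C_Irr := by
  intro k _ _ m r na nb N hr hrm hN a b D P S hF hOk hI E _ _ _ δ hδ W hW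
  set W' : Submodule E E[X] := W.map (pol E N) with hW'
  have hW'le : W' ≤ degreeLT E N := by
    rintro _ ⟨u, -, rfl⟩
    exact pol_mem _ _ _
  have hstab : ∀ u ∈ W', ∀ P S : E[X], P.natDegree < N → S.natDegree ≤ N →
      Rl m r a b P S u → dE δ u - P - derivative S ∈ W' := by
    rintro _ ⟨u, hu, rfl⟩ P1 S1 hP1 hS1 h1
    obtain ⟨P0, S0, hP0, hS0, h0, hconn⟩ := sol hN hF hOk δ u
    obtain ⟨eP, eS⟩ := uniq hr hrm hF hS1 hS0 h1 h0
    rw [eP, eS, hconn]
    exact ⟨_, hW u hu, rfl⟩
  rcases hI E δ hδ W' hW'le hstab with h | h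
  · left
    rw [eq_bot_iff]
    intro u hu
    have h1 : pol E N u ∈ W' := ⟨u, hu, rfl⟩
    rw [h, Submodule.mem_bot] at h1
    rw [Submodule.mem_bot]
    exact pol_inj E N (h1.trans (map_zero _).symm)
  · right
    rw [eq_top_iff]
    intro u _
    have h1 : pol E N u ∈ W' := by
      rw [h]
      exact pol_mem _ _ _
    obtain ⟨v, hv, hvu⟩ := h1
    rw [← pol_inj E N hvu]
    exact hv

theorem dt_mul {A : Type} [CommRing A] (a b : A[X][X]) : dt (a * b) = dt a * b + a * dt b := by
  have hc : ∀ (F : A[X][X]) (i : ℕ), (dt F).coeff i = derivative (F.coeff i) := by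
    intro F i
    unfold dt
    rw [Polynomial.sum_def, finsetSum_coeff]
    simp only [coeff_monomial, Finset.sum_ite_eq']
    split_ifs with h
    · rfl
    · rw [notMem_support_iff.1 h, map_zero]
  ext1 i
  rw [hc, coeff_mul, coeff_add, coeff_mul, coeff_mul, map_sum, ← Finset.sum_add_distrib]
  refine Finset.sum_congr rfl fun p _ => ?_
  rw [hc, hc, derivative_mul]

/-- **C18.** -/
theorem c_irrHalf : C_IrrHalf := by
  intro k _ _ m r g hr hm hg a b hI E _ _ _ δ hδ W hW hst
  refine hI E δ hδ W hW ?_
  intro u hu P S hP hS h1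
  have hchar : CharZero E := charZero_of_injective_ringHom (algebraMap (KX k) E).injective
  set θ : k[X] →+* E := (algebraMap (KX k) E).comp (ι k) with hθ
  have hrE : (r : E[X]) ≠ 0 := by
    rw [← Polynomial.C_eq_natCast]
    refine C_ne_zero.2 ?_
    have : r ≠ 0 := by omega
    exact_mod_cast this
  have hmr : m - r = r := by omega
  have hmE : (m : E[X]) = 2 * (r : E[X]) := by
    rw [← hm]
    push_cast
    ring
  have e1 : (Lam m r a b (derivative a) (derivative b)).map θ =
      (r : E[X]) * derivative ((a * b).map θ) := by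
    unfold Lam
    rw [hmr]
    simp only [Polynomial.map_add, Polynomial.map_mul, Polynomial.map_natCast, derivative_mul,
      derivative_map]
    ring
  have e2 : (Lam m r a b (dt a) (dt b)).map θ = (r : E[X]) * (dt (a * b)).map θ := by
    unfold Lam
    rw [hmr, dt_mul]
    simp only [Polynomial.map_add, Polynomial.map_mul, Polynomial.map_natCast]
    ring
  rw [e1, e2, hmE] at h1
  have h2 : 2 * P * (a * b).map θ + S * derivative ((a * b).map θ) = u * (dt (a * b)).map θ := by
    refine mul_left_cancel₀ hrE ?_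
    linear_combination h1
  have h2P : (2 * P).natDegree < 2 * g := by
    have : (2 : E[X]) * P = Polynomial.C 2 * P := rfl
    rw [this]
    exact (natDegree_C_mul_le _ _).trans_lt hP
  have h3 := hst u hu (2 * P) S h2P hS h2
  have e3 : Polynomial.C (2 : E)⁻¹ * (2 * P) = P := by
    have : (2 : E[X]) * P = Polynomial.C 2 * P := rfl
    rw [this, ← mul_assoc, ← C_mul, inv_mul_cancel₀ (two_ne_zero), C_1, one_mul]
  rw [e3] at h3
  exact h3

/-- the bilinear form on the polynomials -/
noncomputable def bil {E : Type} [Field E] {N : ℕ} (w : Matrix (Fin N) (Fin N) E) :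
    E[X] →ₗ[E] E[X] →ₗ[E] E :=
  LinearMap.mk₂ E (fun f g => ∑ i : Fin N, ∑ j : Fin N, f.coeff i * w i j * g.coeff j)
    (by
      intro f f' g
      simp only [coeff_add, add_mul, Finset.sum_add_distrib])
    (by
      intro c f g
      simp only [coeff_smul, smul_eq_mul, Finset.mul_sum]
      exact Finset.sum_congr rfl fun i _ => Finset.sum_congr rfl fun j _ => by ring)
    (by
      intro f g g'
      simp only [coeff_add, mul_add, Finset.sum_add_distrib])
    (by
      intro c f g
      simp only [coeff_smul, smul_eq_mul, Finset.mul_sum]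
      exact Finset.sum_congr rfl fun i _ => Finset.sum_congr rfl fun j _ => by ring)

theorem bil_apply {E : Type} [Field E] {N : ℕ} (w : Matrix (Fin N) (Fin N) E) (f g : E[X]) :
    bil w f g = ∑ i : Fin N, ∑ j : Fin N, f.coeff i * w i j * g.coeff j := rfl

theorem bil_pol {E : Type} [Field E] {N : ℕ} (w : Matrix (Fin N) (Fin N) E) (u v : Fin N → E) :
    bil w (pol E N u) (pol E N v) = u ⬝ᵥ (w *ᵥ v) := by
  rw [bil_apply, dotProduct]
  refine Finset.sum_congr rfl fun i _ => ?_
  rw [Matrix.mulVec, dotProduct, Finset.mul_sum]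
  refine Finset.sum_congr rfl fun j _ => ?_
  rw [pol_coeff, pol_coeff]
  ring

section der

variable {E : Type} [Field E] {N : ℕ} (δ : Der E)

theorem d_mul (A B : Matrix (Fin N) (Fin N) E) :
    (A * B).map (fun u => δ u) = A.map (fun u => δ u) * B + A * B.map (fun u => δ u) := by
  ext1 i j
  rw [Matrix.map_apply, Matrix.mul_apply, map_sum, Matrix.add_apply, Matrix.mul_apply,
    Matrix.mul_apply, ← Finset.sum_add_distrib]
  refine Finset.sum_congr rfl fun l _ => ?_
  rw [Derivation.leibniz, Matrix.map_apply, Matrix.map_apply, smul_eq_mul, smul_eq_mul]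
  ring

theorem d_mulVec (A : Matrix (Fin N) (Fin N) E) (v : Fin N → E) :
    (fun i => δ ((A *ᵥ v) i)) = A.map (fun u => δ u) *ᵥ v + A *ᵥ (fun i => δ (v i)) := by
  funext i
  rw [Pi.add_apply, Matrix.mulVec, Matrix.mulVec, Matrix.mulVec, dotProduct, dotProduct,
    dotProduct, map_sum, ← Finset.sum_add_distrib]
  refine Finset.sum_congr rfl fun l _ => ?_
  rw [Derivation.leibniz, Matrix.map_apply, smul_eq_mul, smul_eq_mul]
  ring

theorem d_dot (u v : Fin N → E) :
    δ (u ⬝ᵥ v) = (fun i => δ (u i)) ⬝ᵥ v + u ⬝ᵥ (fun i => δ (v i)) := by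
  rw [dotProduct, dotProduct, dotProduct, map_sum, ← Finset.sum_add_distrib]
  refine Finset.sum_congr rfl fun l _ => ?_
  rw [Derivation.leibniz, smul_eq_mul, smul_eq_mul]
  ring

end der

/-- **C17.** -/
theorem c_bil : C_Bil := by
  intro k _ _ m r na nb N hr hrm hN a b D P S hF hOk hI hB E _ _ _ δ hδ z hz hlam
  obtain ⟨lam, hlam⟩ := hlam
  have hchar : CharZero E := charZero_of_injective_ringHom (algebraMap (KX k) E).injective
  set BE : Matrix (Fin N) (Fin N) E := D.B.map (algebraMap (KX k) E) with hBE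
  have hdz : z.map (fun u => δ u) = lam • z - BE * z - z * BEᵀ := by
    rw [← hlam]
    abel
  -- the image
  rcases hI E δ hδ (LinearMap.range (Matrix.mulVecLin z)) (by
    rintro _ ⟨y, rfl⟩
    refine ⟨lam • y - BEᵀ *ᵥ y + fun i => δ (y i), ?_⟩
    rw [Matrix.mulVecLin_apply, Matrix.mulVecLin_apply, Matrix.mulVec_add, Matrix.mulVec_sub,
      Matrix.mulVec_smul, Matrix.mulVec_mulVec, d_mulVec, hdz, Matrix.sub_mulVec,
      Matrix.sub_mulVec, Matrix.smul_mulVec, Matrix.mulVec_mulVec]
    abel) with h | h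
  · have h1 : Matrix.mulVecLin z = 0 := LinearMap.range_eq_bot.1 h
    have h2 : Matrix.toLin' z = 0 := by
      rw [← h1]
      rfl
    exact (LinearEquiv.map_eq_zero_iff Matrix.toLin').1 h2
  · exfalso
    have hsurj : Function.Surjective z.mulVec := by
      have := LinearMap.range_eq_top.1 h
      exact this
    have hu : IsUnit z := Matrix.mulVec_surjective_iff_isUnit.1 hsurj
    have hdet : IsUnit z.det := (Matrix.isUnit_iff_isUnit_det z).1 hu
    set w := z⁻¹ with hw
    have hwz : w * z = 1 := Matrix.nonsing_inv_mul z hdet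
    have hzw : z * w = 1 := Matrix.mul_nonsing_inv z hdet
    have hwt : wᵀ = -w := by
      have h1 : wᵀ * zᵀ = 1 := by
        rw [← Matrix.transpose_mul, hzw, Matrix.transpose_one]
      rw [hz, Matrix.mul_neg] at h1
      have h2 : -(wᵀ) = w := by
        calc -(wᵀ) = -(wᵀ) * (z * w) := by rw [hzw, mul_one]
          _ = (-(wᵀ * z)) * w := by rw [← mul_assoc, neg_mul]
          _ = w := by rw [h1, one_mul]
      exact neg_eq_iff_eq_neg.1 h2
    have hdw : w.map (fun u => δ u) = -(lam • w) + w * BE + BEᵀ * w := by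
      have h1 := d_mul δ w z
      rw [hwz] at h1
      have h2 : (1 : Matrix (Fin N) (Fin N) E).map (fun u => δ u) = 0 := by
        ext1 i j
        rw [Matrix.map_apply, Matrix.one_apply, Matrix.zero_apply]
        split_ifs
        · exact Derivation.map_one_eq_zero δ
        · exact map_zero δ
      rw [h2] at h1
      calc w.map (fun u => δ u) = w.map (fun u => δ u) * (z * w) := by rw [hzw, mul_one]
        _ = (w.map (fun u => δ u) * z) * w := by rw [mul_assoc]
        _ = -(w * z.map (fun u => δ u)) * w := by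
            rw [eq_neg_of_add_eq_zero_left h1.symm]
        _ = -(w * (lam • z - BE * z - z * BEᵀ)) * w := by rw [hdz]
        _ = -(lam • (w * z) * w - w * BE * (z * w) - (w * z) * BEᵀ * w) := by
            rw [Matrix.mul_sub, Matrix.mul_sub, Matrix.mul_smul, neg_mul, Matrix.sub_mul,
              Matrix.sub_mul]
            simp only [mul_assoc]
        _ = _ := by
            rw [hwz, hzw, mul_one, one_mul, Matrix.smul_mul, one_mul]
            abel
    have hzero := hB E δ hδ (bil w) (-lam) (by
      intro f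
      have h1 : bil w f f = -bil w f f := by
        conv_lhs => rw [bil_apply, Finset.sum_comm]
        rw [bil_apply, ← Finset.sum_neg_distrib]
        refine Finset.sum_congr rfl fun i _ => ?_
        rw [← Finset.sum_neg_distrib]
        refine Finset.sum_congr rfl fun j _ => ?_
        have h2 := congrFun (congrFun hwt i) j
        rw [Matrix.transpose_apply, Matrix.neg_apply] at h2
        rw [h2]
        ring
      have h2 : (2 : E) * bil w f f = 0 := by linear_combination h1
      exact (mul_eq_zero.1 h2).resolve_left two_ne_zero) (by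
      intro u hu v hv P1 S1 P2 S2 hP1 hS1 hP2 hS2 r1 r2
      obtain ⟨u, rfl⟩ := pol_surj E N hu
      obtain ⟨v, rfl⟩ := pol_surj E N hv
      obtain ⟨P0, S0, hP0, hS0, h0, hconn⟩ := sol hN hF hOk δ u
      obtain ⟨eP, eS⟩ := uniq hr hrm hF hS1 hS0 r1 h0
      obtain ⟨P0', S0', hP0', hS0', h0', hconn'⟩ := sol hN hF hOk δ v
      obtain ⟨eP', eS'⟩ := uniq hr hrm hF hS2 hS0' r2 h0'
      rw [eP, eS, hconn, eP', eS', hconn', bil_pol, bil_pol, bil_pol, d_dot, d_mulVec, hdw,
        ← hBE]
      simp only [Matrix.add_mulVec, Matrix.neg_mulVec, Matrix.smul_mulVec, dotProduct_add,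
        add_dotProduct, dotProduct_neg, dotProduct_smul, Matrix.mulVec_add, smul_eq_mul,
        ← Matrix.mulVec_mulVec]
      have h3 : u ⬝ᵥ BEᵀ *ᵥ w *ᵥ v = BE *ᵥ u ⬝ᵥ w *ᵥ v := by
        rw [Matrix.mulVec_transpose, dotProduct_comm u, ← Matrix.dotProduct_mulVec,
          dotProduct_comm]
      rw [h3]
      ring)
    have hw0 : w = 0 := by
      ext1 i j
      have h1 := hzero (pol E N (Pi.single i 1)) (pol_mem _ _ _) (pol E N (Pi.single j 1))
        (pol_mem _ _ _)
      rw [bil_pol] at h1
      simpa using h1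
    rw [hw0, Matrix.zero_mul] at hwz
    have := congrFun (congrFun hwz ⟨0, hN⟩) ⟨0, hN⟩
    rw [Matrix.zero_apply, Matrix.one_apply_eq] at this
    exact zero_ne_one this

end Pool.Agent.Helper90.CX
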