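import Pool.Agent.Helper62.CX.Stm
import Pool.Agent.Helper90.BW.Tr

/-!
# C_Tr: transfer of `Strong` along extensions of the constants
-/

set_option autoImplicit false
set_option linter.unusedSectionVars false

open Polynomial Matrix Finset

namespace Pool.Agent.Helper90.CX

open Pool.Agent.Helper62.BM Pool.Agent.Helper62.CX
open Pool.Agent.Helper90.BW (tay_map tay_lin tay_const der_map map_inj lamP lamS coeff_lamP
  coeff_lamS lamS_zero lamS_sum lamS_mul lamS_tay eq_zero_of)

section down

variable {K L : Type} [Field K] [Field L] (φ : K →+* L) {n : ℕ}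

/-- the equation -/
noncomputable def eqn (M : Matrix (Fin n) (Fin n) K[X]) (w : K[X]) (c : K)
    (x : Fin n → PowerSeries K) (a : Fin n) : PowerSeries K :=
  tay c ((X - Polynomial.C c) * w) * PowerSeries.derivative K (x a) + ∑ b, tay c (M a b) * x b

theorem eqn_map (M : Matrix (Fin n) (Fin n) K[X]) (w : K[X]) (c : K)
    (x : Fin n → PowerSeries K) (a : Fin n) :
    eqn (M.map (mapRingHom φ)) (w.map φ) (φ c) (fun b => PowerSeries.map φ (x b)) a =
      PowerSeries.map φ (eqn M w c x a) := by
  have e1 : tay (φ c) ((X - Polynomial.C (φ c)) * w.map φ) =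
      PowerSeries.map φ (tay c ((X - Polynomial.C c) * w)) := by
    rw [tay_map, Polynomial.map_mul, Polynomial.map_sub, Polynomial.map_X, Polynomial.map_C]
  unfold eqn
  rw [e1, map_add, map_sum, map_mul (PowerSeries.map φ) (tay c ((X - Polynomial.C c) * w)), der_map]
  congr 1
  refine Finset.sum_congr rfl fun b _ => ?_
  rw [map_mul, tay_map]
  rfl

theorem horC_iff {K : Type} [Field K] {n : ℕ} (D : Cdat K n) (x : Fin n → PowerSeries K) :
    D.HorC x ↔ ∀ a, eqn D.M D.w D.c x a = 0 := Iff.rfl

theorem horR_iff {K : Type} [Field K] {n : ℕ} (D : Cdat K n) (y : Fin n → PowerSeries K) :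
    D.HorR y ↔ ∀ a, eqn (-D.Mᵀ) D.w D.c y a = 0 := by
  refine forall_congr' fun a => ?_
  unfold eqn Cdat.W
  have : ∑ b, tay D.c ((-D.Mᵀ) a b) * y b = -∑ b, tay D.c (D.M b a) * y b := by
    rw [← Finset.sum_neg_distrib]
    refine Finset.sum_congr rfl fun b _ => ?_
    rw [Matrix.neg_apply, Matrix.transpose_apply, map_neg, neg_mul]
  rw [this, ← sub_eq_add_neg, sub_eq_zero]

theorem neg_tr_map (M : Matrix (Fin n) (Fin n) K[X]) :
    (-Mᵀ).map (mapRingHom φ) = -(M.map (mapRingHom φ))ᵀ := by
  ext1 i j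
  rw [Matrix.map_apply, Matrix.neg_apply, Matrix.neg_apply, Matrix.transpose_apply,
    Matrix.transpose_apply, Matrix.map_apply, map_neg]

theorem eqn_map_iff (M : Matrix (Fin n) (Fin n) K[X]) (w : K[X]) (c : K)
    (x : Fin n → PowerSeries K) :
    (∀ a, eqn (M.map (mapRingHom φ)) (w.map φ) (φ c) (fun b => PowerSeries.map φ (x b)) a = 0) ↔
      ∀ a, eqn M w c x a = 0 := by
  refine forall_congr' fun a => ?_
  rw [eqn_map]
  constructor
  · intro h
    exact map_inj φ (h.trans (map_zero _).symm)
  · intro h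
    rw [h, map_zero]

theorem horC_map (D : Cdat K n) (x : Fin n → PowerSeries K) :
    (D.map φ).HorC (fun b => PowerSeries.map φ (x b)) ↔ D.HorC x := by
  rw [horC_iff, horC_iff]
  exact eqn_map_iff φ D.M D.w D.c x

theorem horR_map (D : Cdat K n) (x : Fin n → PowerSeries K) :
    (D.map φ).HorR (fun b => PowerSeries.map φ (x b)) ↔ D.HorR x := by
  rw [horR_iff, horR_iff, ← eqn_map_iff φ (-D.Mᵀ) D.w D.c x, neg_tr_map]
  exact Iff.rfl

theorem vmv_map (x y : Fin n → PowerSeries K) :
    Matrix.vecMulVec (fun b => PowerSeries.map φ (x b)) (fun b => PowerSeries.map φ (y b)) =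
      (Matrix.vecMulVec x y).map (PowerSeries.map φ) := by
  ext1 i j
  rw [Matrix.vecMulVec_apply, Matrix.map_apply, Matrix.vecMulVec_apply, map_mul]

theorem tay_mat (c : K) (θ : Matrix (Fin n) (Fin n) K[X]) :
    (θ.map (mapRingHom φ)).map (tay (φ c)) = (θ.map (tay c)).map (PowerSeries.map φ) := by
  ext1 i j
  rw [Matrix.map_apply, Matrix.map_apply, Matrix.map_apply, Matrix.map_apply, tay_map]
  rfl

theorem lin_down (c : K) (y : Fin n → PowerSeries K)
    (h : ∀ z : Fin n → L[X], ∑ a, tay (φ c) (z a) * PowerSeries.map φ (y a) = 0 → z = 0) :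
    ∀ z : Fin n → K[X], ∑ a, tay c (z a) * y a = 0 → z = 0 := by
  intro z hz
  have h3 := h (fun a => (z a).map φ) (by
    have h4 := congrArg (PowerSeries.map φ) hz
    rw [map_sum, map_zero] at h4
    rw [← h4]
    refine Finset.sum_congr rfl fun a _ => ?_
    rw [map_mul, tay_map])
  funext a
  exact (Polynomial.map_eq_zero φ).1 (congrFun h3 a)

theorem comm_down (c : K) (Y : Matrix (Fin n) (Fin n) (PowerSeries K))
    (h : ∀ θ : Matrix (Fin n) (Fin n) L[X], θ.map (tay (φ c)) * Y.map (PowerSeries.map φ) =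
      Y.map (PowerSeries.map φ) * θ.map (tay (φ c)) → ∃ q : L[X], θ = Matrix.diagonal fun _ => q) :
    ∀ θ : Matrix (Fin n) (Fin n) K[X], θ.map (tay c) * Y = Y * θ.map (tay c) →
      ∃ q : K[X], θ = Matrix.diagonal fun _ => q := by
  intro θ hθ
  obtain ⟨q, hq⟩ := h (θ.map (mapRingHom φ)) (by
    rw [tay_mat, ← Matrix.map_mul, ← Matrix.map_mul, hθ])
  by_cases hne : Nonempty (Fin n)
  · obtain ⟨i0⟩ := hne
    refine ⟨θ i0 i0, ?_⟩
    ext1 i j
    have h3 := congrFun (congrFun hq i) j
    have h4 := congrFun (congrFun hq i0) i0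
    rw [Matrix.map_apply] at h3 h4
    rw [Matrix.diagonal_apply] at h3 ⊢
    rw [Matrix.diagonal_apply_eq] at h4
    have hinj : Function.Injective (mapRingHom φ) := Polynomial.map_injective φ φ.injective
    split_ifs with hij
    · rw [if_pos hij] at h3
      exact hinj (h3.trans h4.symm)
    · rw [if_neg hij] at h3
      exact hinj (h3.trans (map_zero _).symm)
  · refine ⟨0, ?_⟩
    ext1 i
    exact absurd ⟨i⟩ hne

theorem form_down (c : K) (Y : Matrix (Fin n) (Fin n) (PowerSeries K))
    (h : ∀ θ : Matrix (Fin n) (Fin n) L[X], Y.map (PowerSeries.map φ) * θ.map (tay (φ c)) +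
      θ.map (tay (φ c)) * (Y.map (PowerSeries.map φ))ᵀ = 0 → θ = 0) :
    ∀ θ : Matrix (Fin n) (Fin n) K[X], Y * θ.map (tay c) + θ.map (tay c) * Yᵀ = 0 → θ = 0 := by
  intro θ hθ
  have h1 := h (θ.map (mapRingHom φ)) (by
    rw [tay_mat, ← Matrix.transpose_map, ← Matrix.map_mul, ← Matrix.map_mul,
      ← Matrix.map_add _ (fun a b => map_add (PowerSeries.map φ) a b), hθ]
    ext1 i j
    rw [Matrix.map_apply, Matrix.zero_apply, Matrix.zero_apply, map_zero])
  ext1 i j
  have h2 := congrFun (congrFun h1 i) j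
  rw [Matrix.map_apply, Matrix.zero_apply] at h2
  rw [Matrix.zero_apply]
  exact (Polynomial.map_eq_zero φ).1 h2

/-- down -/
theorem down (D : Cdat K n) (h : (D.map φ).Strong) : D.Strong := by
  intro x y hx hy hx0 hy0
  have hc : ∀ (u : PowerSeries K), PowerSeries.constantCoeff (PowerSeries.map φ u) =
      φ (PowerSeries.constantCoeff u) := by
    intro u
    rw [← PowerSeries.coeff_zero_eq_constantCoeff_apply, PowerSeries.coeff_map,
      PowerSeries.coeff_zero_eq_constantCoeff_apply]
  obtain ⟨h1, h2, h3, h4⟩ := h (fun b => PowerSeries.map φ (x b))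
    (fun b => PowerSeries.map φ (y b)) ((horC_map φ D x).2 hx) ((horR_map φ D y).2 hy)
    (fun a => by rw [hc, hx0]; rfl) (fun a => by rw [hc, hy0]; rfl)
  rw [vmv_map] at h3 h4
  exact ⟨lin_down φ D.c y h1, lin_down φ D.c x h2, comm_down φ D.c _ h3,
    fun hn => form_down φ D.c _ (h4 hn)⟩

end down

section mem

variable {K L : Type} [Field K] [Field L] [CharZero K] [CharZero L] (φ : K →+* L) {n : ℕ}

/-- the coefficients of the solutions are in the small field -/
theorem coef_mem (M : Matrix (Fin n) (Fin n) K[X]) (w : K[X]) (c : K) (hw : w.eval c ≠ 0)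
    (hsq : ∀ i j, ∑ l, (M i l).eval c * (M l j).eval c = 0) {x : Fin n → PowerSeries L}
    (hx : ∀ a, eqn (M.map (mapRingHom φ)) (w.map φ) (φ c) x a = 0)
    (h0 : ∀ a, PowerSeries.constantCoeff (x a) ∈ φ.fieldRange) :
    ∀ m a, PowerSeries.coeff m (x a) ∈ φ.fieldRange := by
  have hin : ∀ y : K, φ y ∈ φ.fieldRange := fun y => ⟨y, rfl⟩
  intro m
  induction m using Nat.strong_induction_on with
  | _ m ih =>
  rcases Nat.eq_zero_or_pos m with hm | hm
  · subst hm
    intro a
    rw [PowerSeries.coeff_zero_eq_constantCoeff_apply]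
    exact h0 a
  · have htay : ∀ (q : K[X]) (n : ℕ), PowerSeries.coeff n (tay (φ c) (q.map φ)) ∈
        φ.fieldRange := by
      intro q n
      have : tay (φ c) (q.map φ) = PowerSeries.map φ (tay c q) := (tay_map φ c q).symm
      rw [this, PowerSeries.coeff_map]
      exact hin _
    obtain ⟨n', rfl⟩ : ∃ n', m = n' + 1 := ⟨m - 1, by omega⟩
    set W0 : L := φ (w.eval c) with hW0
    set N : Fin n → Fin n → L := fun a b => φ ((M a b).eval c) with hN
    -- the first part
    have p1 : ∀ a, ∃ ρ ∈ φ.fieldRange, PowerSeries.coeff (n' + 1)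
        (tay (φ c) ((X - Polynomial.C (φ c)) * w.map φ) * PowerSeries.derivative L (x a)) =
        ((n' : L) + 1) * W0 * PowerSeries.coeff (n' + 1) (x a) + ρ := by
      intro a
      rw [map_mul (tay (φ c)), tay_lin, mul_assoc, PowerSeries.coeff_succ_X_mul, PowerSeries.coeff_mul,
        Finset.Nat.sum_antidiagonal_eq_sum_range_succ_mk, Finset.sum_range_succ']
      refine ⟨∑ k ∈ Finset.range n', PowerSeries.coeff (k + 1) (tay (φ c) (w.map φ)) *
        PowerSeries.coeff (n' - (k + 1)) (PowerSeries.derivative L (x a)), ?_, ?_⟩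
      · refine sum_mem fun k hk => mul_mem (htay _ _) ?_
        rw [Finset.mem_range] at hk
        rw [PowerSeries.coeff_derivative]
        refine mul_mem (ih _ (by omega) a) ?_
        exact add_mem (natCast_mem _ _) (one_mem _)
      · have e2 : PowerSeries.coeff 0 (tay (φ c) (w.map φ)) = W0 := by
          rw [tay_const, Polynomial.eval_map_apply]
        simp only [Nat.sub_zero]
        rw [e2, PowerSeries.coeff_derivative]
        ring
    -- the second part
    have p2 : ∀ a, ∃ ρ ∈ φ.fieldRange, PowerSeries.coeff (n' + 1)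
        (∑ b, tay (φ c) ((M.map (mapRingHom φ)) a b) * x b) =
        ∑ b, N a b * PowerSeries.coeff (n' + 1) (x b) + ρ := by
      intro a
      have e1 : ∀ b, ∃ ρ ∈ φ.fieldRange, PowerSeries.coeff (n' + 1)
          (tay (φ c) ((M.map (mapRingHom φ)) a b) * x b) =
          N a b * PowerSeries.coeff (n' + 1) (x b) + ρ := by
        intro b
        rw [PowerSeries.coeff_mul, Finset.Nat.sum_antidiagonal_eq_sum_range_succ_mk,
          Finset.sum_range_succ']
        refine ⟨∑ k ∈ Finset.range (n' + 1),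
          PowerSeries.coeff (k + 1) (tay (φ c) ((M.map (mapRingHom φ)) a b)) *
            PowerSeries.coeff (n' + 1 - (k + 1)) (x b), ?_, ?_⟩
        · refine sum_mem fun k hk => mul_mem (htay _ _) (ih _ ?_ b)
          rw [Finset.mem_range] at hk
          omega
        · have e2 : PowerSeries.coeff 0 (tay (φ c) ((M.map (mapRingHom φ)) a b)) = N a b := by
            rw [tay_const]
            show ((M a b).map φ).eval (φ c) = _
            rw [Polynomial.eval_map_apply]
          simp only [Nat.sub_zero]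
          rw [e2]
          ring
      choose ρ hρ1 hρ2 using e1
      refine ⟨∑ b, ρ b, sum_mem fun b _ => hρ1 b, ?_⟩
      rw [map_sum, ← Finset.sum_add_distrib]
      exact Finset.sum_congr rfl fun b _ => hρ2 b
    choose ρ1 hρ1 eρ1 using p1
    choose ρ2 hρ2 eρ2 using p2
    set v : Fin n → L := fun a => PowerSeries.coeff (n' + 1) (x a) with hv
    have key : ∀ a, ((n' : L) + 1) * W0 * v a + ∑ b, N a b * v b = -(ρ1 a + ρ2 a) := by
      intro a
      have h1 := congrArg (PowerSeries.coeff (n' + 1)) (hx a)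
      unfold eqn at h1
      rw [map_add, eρ1, eρ2, map_zero] at h1
      linear_combination h1
    have hNN : ∀ a b, ∑ l, N a l * N l b = 0 := by
      intro a b
      have h1 := congrArg φ (hsq a b)
      rw [map_sum, map_zero] at h1
      rw [← h1]
      exact Finset.sum_congr rfl fun l _ => (map_mul _ _ _).symm
    intro a
    show v a ∈ _
    set s : L := ((n' : L) + 1) * W0 with hs
    have hs0 : s ≠ 0 := by
      refine mul_ne_zero ?_ ((_root_.map_ne_zero φ).2 hw)
      exact_mod_cast Nat.succ_ne_zero n'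
    have hfin : s * s * v a = -(s * (ρ1 a + ρ2 a)) + ∑ l, N a l * (ρ1 l + ρ2 l) := by
      have h1 : ∑ l, N a l * (s * v l + ∑ b, N l b * v b) = -∑ l, N a l * (ρ1 l + ρ2 l) := by
        rw [← Finset.sum_neg_distrib]
        refine Finset.sum_congr rfl fun l _ => ?_
        rw [key l]
        ring
      have h2 : ∑ l, N a l * (s * v l + ∑ b, N l b * v b) = s * ∑ l, N a l * v l := by
        have h3 : ∑ l, N a l * ∑ b, N l b * v b = 0 := by
          calc ∑ l, N a l * ∑ b, N l b * v b = ∑ l, ∑ b, N a l * N l b * v b := by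
                refine Finset.sum_congr rfl fun l _ => ?_
                rw [Finset.mul_sum]
                exact Finset.sum_congr rfl fun b _ => by ring
            _ = ∑ b, ∑ l, N a l * N l b * v b := Finset.sum_comm
            _ = ∑ b, (∑ l, N a l * N l b) * v b :=
                Finset.sum_congr rfl fun b _ => (Finset.sum_mul _ _ _).symm
            _ = 0 := by
                refine Finset.sum_eq_zero fun b _ => ?_
                rw [hNN, zero_mul]
        calc ∑ l, N a l * (s * v l + ∑ b, N l b * v b)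
            = ∑ l, (s * (N a l * v l) + N a l * ∑ b, N l b * v b) :=
              Finset.sum_congr rfl fun l _ => by ring
          _ = s * ∑ l, N a l * v l + ∑ l, N a l * ∑ b, N l b * v b := by
              rw [Finset.sum_add_distrib, Finset.mul_sum]
          _ = _ := by rw [h3, add_zero]
      have h4 := key a
      rw [h2] at h1
      linear_combination s * h4 - h1
    have hsF : s ∈ φ.fieldRange := by
      refine mul_mem (add_mem (natCast_mem _ _) (one_mem _)) (hin _)
    have e : v a = (s * s)⁻¹ * (-(s * (ρ1 a + ρ2 a)) + ∑ l, N a l * (ρ1 l + ρ2 l)) := by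
      rw [← hfin, ← mul_assoc, inv_mul_cancel₀ (mul_ne_zero hs0 hs0), one_mul]
    rw [e]
    refine mul_mem (inv_mem (mul_mem hsF hsF)) (add_mem (neg_mem (mul_mem hsF
      (add_mem (hρ1 a) (hρ2 a)))) (sum_mem fun l _ => mul_mem (hin _) (add_mem (hρ1 l) (hρ2 l))))

/-- the square of the residue -/
theorem sq_zero {K : Type} [Field K] {n : ℕ} (D : Cdat K n) (h : D.Ok) (i j : Fin n) :
    ∑ l, (D.M i l).eval D.c * (D.M l j).eval D.c = 0 := by
  obtain ⟨-, o4, -, -, -, hskew, o6⟩ := h
  have e : D.μ * D.μ * ∑ l, (D.M i l).eval D.c * (D.M l j).eval D.c = 0 := by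
    calc D.μ * D.μ * ∑ l, (D.M i l).eval D.c * (D.M l j).eval D.c
        = ∑ l, (D.μ * (D.M i l).eval D.c) * (D.μ * (D.M l j).eval D.c) := by
          rw [Finset.mul_sum]
          exact Finset.sum_congr rfl fun l _ => by ring
      _ = ∑ l, (D.κ * D.r i * D.e l) * (D.κ * D.r l * D.e j) :=
          Finset.sum_congr rfl fun l _ => by rw [o6, o6]
      _ = D.κ * D.κ * D.r i * D.e j * ∑ l, D.e l * D.r l := by
          rw [Finset.mul_sum]
          exact Finset.sum_congr rfl fun l _ => by ring
      _ = 0 := by rw [hskew, mul_zero]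
  exact (mul_eq_zero.1 e).resolve_left (mul_ne_zero o4 o4)

end mem

section up

variable {K L : Type} [Field K] [Field L] [Algebra K L] {n : ℕ}

theorem lin_up (c : K) (y : Fin n → PowerSeries K)
    (h : ∀ z : Fin n → K[X], ∑ a, tay c (z a) * y a = 0 → z = 0) :
    ∀ z : Fin n → L[X], ∑ a, tay (algebraMap K L c) (z a) *
      PowerSeries.map (algebraMap K L) (y a) = 0 → z = 0 := by
  intro z hz
  funext a
  refine eq_zero_of (K := K) (z a) fun l => ?_
  have h3 := h (fun a => lamP l (z a)) (by
    have h4 := congrArg (lamS l) hz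
    rw [lamS_sum, lamS_zero] at h4
    rw [← h4]
    refine Finset.sum_congr rfl fun b _ => ?_
    rw [lamS_mul, lamS_tay])
  exact congrFun h3 a

theorem comm_up (c : K) (Y : Matrix (Fin n) (Fin n) (PowerSeries K))
    (h : ∀ θ : Matrix (Fin n) (Fin n) K[X], θ.map (tay c) * Y = Y * θ.map (tay c) →
      ∃ q : K[X], θ = Matrix.diagonal fun _ => q) :
    ∀ θ : Matrix (Fin n) (Fin n) L[X],
      θ.map (tay (algebraMap K L c)) * Y.map (PowerSeries.map (algebraMap K L)) =
      Y.map (PowerSeries.map (algebraMap K L)) * θ.map (tay (algebraMap K L c)) →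
        ∃ q : L[X], θ = Matrix.diagonal fun _ => q := by
  intro θ hθ
  have key : ∀ l : L →ₗ[K] K, ∃ q : K[X], (Matrix.of fun i j => lamP l (θ i j)) =
      Matrix.diagonal fun _ => q := by
    intro l
    refine h _ ?_
    ext1 i j
    have h3 := congrArg (lamS l) (congrFun (congrFun hθ i) j)
    rw [Matrix.mul_apply, Matrix.mul_apply, lamS_sum, lamS_sum] at h3
    rw [Matrix.mul_apply, Matrix.mul_apply]
    refine Eq.trans (Finset.sum_congr rfl fun b _ => ?_) (h3.trans
      (Finset.sum_congr rfl fun b _ => ?_))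
    · rw [Matrix.map_apply, Matrix.map_apply, Matrix.map_apply, lamS_mul, Matrix.of_apply,
        lamS_tay]
    · rw [Matrix.map_apply, Matrix.map_apply, Matrix.map_apply, mul_comm, lamS_mul,
        Matrix.of_apply, lamS_tay, mul_comm]
  by_cases hne : Nonempty (Fin n)
  · obtain ⟨i0⟩ := hne
    refine ⟨θ i0 i0, ?_⟩
    ext1 i j
    rw [Matrix.diagonal_apply]
    split_ifs with hij
    · subst hij
      rw [← sub_eq_zero]
      ext m
      rw [coeff_sub, coeff_zero]
      refine (Module.forall_dual_apply_eq_zero_iff K _).1 fun l => ?_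
      obtain ⟨q, hq⟩ := key l
      have e1 := congrFun (congrFun hq i) i
      have e2 := congrFun (congrFun hq i0) i0
      rw [Matrix.of_apply, Matrix.diagonal_apply_eq] at e1 e2
      have e3 := congrArg (fun p : K[X] => p.coeff m) (e1.trans e2.symm)
      simp only [coeff_lamP] at e3
      rw [map_sub, e3, sub_self]
    · refine eq_zero_of (K := K) _ fun l => ?_
      obtain ⟨q, hq⟩ := key l
      have e1 := congrFun (congrFun hq i) j
      rw [Matrix.of_apply, Matrix.diagonal_apply_ne _ hij] at e1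
      exact e1
  · refine ⟨0, ?_⟩
    ext1 i
    exact absurd ⟨i⟩ hne

theorem form_up (c : K) (Y : Matrix (Fin n) (Fin n) (PowerSeries K))
    (h : ∀ θ : Matrix (Fin n) (Fin n) K[X], Y * θ.map (tay c) + θ.map (tay c) * Yᵀ = 0 → θ = 0) :
    ∀ θ : Matrix (Fin n) (Fin n) L[X],
      Y.map (PowerSeries.map (algebraMap K L)) * θ.map (tay (algebraMap K L c)) +
      θ.map (tay (algebraMap K L c)) * (Y.map (PowerSeries.map (algebraMap K L)))ᵀ = 0 →
        θ = 0 := by
  intro θ hθ
  have key : ∀ l : L →ₗ[K] K, (Matrix.of fun i j => lamP l (θ i j)) = 0 := by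
    intro l
    refine h _ ?_
    ext1 i j
    have h3 := congrArg (lamS l) (congrFun (congrFun hθ i) j)
    have hadd : ∀ u v : PowerSeries L, lamS l (u + v) = lamS l u + lamS l v := by
      intro u v
      ext m
      rw [map_add, coeff_lamS, coeff_lamS, coeff_lamS, map_add, map_add]
    rw [Matrix.add_apply, Matrix.mul_apply, Matrix.mul_apply, hadd, lamS_sum, lamS_sum,
      Matrix.zero_apply, lamS_zero] at h3
    rw [Matrix.add_apply, Matrix.mul_apply, Matrix.mul_apply, Matrix.zero_apply, ← h3]
    congr 1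
    · refine Finset.sum_congr rfl fun b _ => ?_
      rw [Matrix.map_apply, Matrix.map_apply, Matrix.map_apply,
        mul_comm (PowerSeries.map (algebraMap K L) (Y i b)), lamS_mul,
        Matrix.of_apply, lamS_tay, mul_comm]
    · refine Finset.sum_congr rfl fun b _ => ?_
      rw [Matrix.map_apply, Matrix.map_apply, Matrix.transpose_apply, Matrix.transpose_apply,
        Matrix.map_apply, lamS_mul, Matrix.of_apply, lamS_tay]
  ext1 i j
  rw [Matrix.zero_apply]
  refine eq_zero_of (K := K) _ fun l => ?_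
  have := congrFun (congrFun (key l) i) j
  rw [Matrix.of_apply, Matrix.zero_apply] at this
  exact this

/-- the solutions come from the small field -/
theorem lift_sol [CharZero K] [CharZero L] (M : Matrix (Fin n) (Fin n) K[X]) (w : K[X]) (c : K)
    (hw : w.eval c ≠ 0) (hM : ∀ i j, ∑ l, (M i l).eval c * (M l j).eval c = 0) (v : Fin n → K)
    (x' : Fin n → PowerSeries L) (hx' : ∀ a, eqn (M.map (mapRingHom (algebraMap K L)))
      (w.map (algebraMap K L)) (algebraMap K L c) x' a = 0)
    (h0' : ∀ a, PowerSeries.constantCoeff (x' a) = algebraMap K L (v a)) :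
    ∃ x : Fin n → PowerSeries K, x' = (fun b => PowerSeries.map (algebraMap K L) (x b)) ∧
      (∀ a, eqn M w c x a = 0) ∧ ∀ a, PowerSeries.constantCoeff (x a) = v a := by
  have hmem := coef_mem (algebraMap K L) M w c hw hM hx' (fun a => ⟨v a, (h0' a).symm⟩)
  choose y hy using hmem
  obtain ⟨x, hx⟩ : ∃ x : Fin n → PowerSeries K,
      x' = fun b => PowerSeries.map (algebraMap K L) (x b) := by
    refine ⟨fun a => PowerSeries.mk fun m => y m a, ?_⟩
    funext a
    ext m
    rw [PowerSeries.coeff_map, PowerSeries.coeff_mk]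
    exact (hy m a).symm
  subst hx
  refine ⟨x, rfl, (eqn_map_iff (algebraMap K L) M w c x).1 hx', fun a => ?_⟩
  apply (algebraMap K L).injective
  have h1 := h0' a
  simp only at h1
  rw [← PowerSeries.coeff_zero_eq_constantCoeff_apply, PowerSeries.coeff_map,
    PowerSeries.coeff_zero_eq_constantCoeff_apply] at h1
  exact h1

/-- up -/
theorem up [CharZero K] [CharZero L] (D : Cdat K n) (hOk : D.Ok) (h : D.Strong) :
    (D.map (algebraMap K L)).Strong := by
  intro x' y' hx' hy' hx0' hy0'
  have hw : D.w.eval D.c ≠ 0 := hOk.1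
  have hx1 : ∀ a, eqn (D.M.map (mapRingHom (algebraMap K L)))
      (D.w.map (algebraMap K L)) (algebraMap K L D.c) x' a = 0 := hx'
  obtain ⟨x, hxx, hx, hx0⟩ := lift_sol D.M D.w D.c hw (sq_zero D hOk) D.r x' hx1 hx0'
  have hy1 : ∀ a, eqn ((-D.Mᵀ).map (mapRingHom (algebraMap K L)))
      (D.w.map (algebraMap K L)) (algebraMap K L D.c) y' a = 0 := by
    rw [neg_tr_map]
    exact (horR_iff (D.map (algebraMap K L)) y').1 hy'
  obtain ⟨y, hyy, hy, hy0⟩ := lift_sol (-D.Mᵀ) D.w D.c hw (by
      intro i j
      rw [← sq_zero D hOk j i]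
      refine Finset.sum_congr rfl fun l _ => ?_
      rw [Matrix.neg_apply, Matrix.neg_apply, Matrix.transpose_apply, Matrix.transpose_apply,
        eval_neg, eval_neg]
      ring) D.e y' hy1 hy0'
  obtain ⟨h1, h2, h3, h4⟩ := h x y ((horC_iff D x).2 hx) ((horR_iff D y).2 hy) hx0 hy0
  clear hx' hy' hx0' hy0' hx1 hy1
  subst hxx
  subst hyy
  have e1 := lin_up (L := L) D.c y h1
  have e2 := lin_up (L := L) D.c x h2
  have e3 := comm_up (L := L) D.c _ h3
  have e4 := fun hn => form_up (L := L) D.c _ (h4 hn)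
  rw [← vmv_map (algebraMap K L)] at e3 e4
  exact ⟨e1, e2, e3, e4⟩

end up

theorem map_map {A B C : Type} [CommRing A] [CommRing B] [CommRing C] {n : ℕ} (D : Cdat A n)
    (f : A →+* B) (f' : B →+* C) : (D.map f).map f' = D.map (f'.comp f) := by
  unfold Cdat.map
  congr 1
  · ext1 i j
    simp only [Matrix.map_apply, coe_mapRingHom, Polynomial.map_map]
  · simp only [Polynomial.map_map]

theorem ok_inj {A B : Type} [CommRing A] [CommRing B] {n : ℕ} (D : Cdat A n) (hD : D.Ok)
    (f : A →+* B) (hf : Function.Injective f) : (D.map f).Ok := by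
  obtain ⟨h1, h2, h3, h4, h5, h6, h7⟩ := hD
  have hne : ∀ a : A, a ≠ 0 → f a ≠ 0 := fun a ha h => ha (hf (h.trans (map_zero f).symm))
  refine ⟨?_, hne _ h2, hne _ h3, ?_, ?_, ?_, ?_⟩
  · show (D.w.map f).eval (f D.c) ≠ 0
    rw [Polynomial.eval_map_apply]
    exact hne _ h1
  · intro h
    apply h4
    funext i
    exact hf ((congrFun h i).trans (map_zero f).symm)
  · intro h
    apply h5
    funext i
    exact hf ((congrFun h i).trans (map_zero f).symm)
  · show ∑ i, f (D.e i) * f (D.r i) = 0
    rw [← map_zero f, ← h6, map_sum]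
    exact Finset.sum_congr rfl fun i _ => (map_mul _ _ _).symm
  · intro i j
    show f D.μ * ((D.M i j).map f).eval (f D.c) = f D.κ * f (D.r i) * f (D.e j)
    rw [Polynomial.eval_map_apply, ← map_mul, h7, map_mul, map_mul]

/-- **C3.** -/
theorem c_tr : C_Tr := by
  intro A _ _ n D hD k k' _ _ _ _ ψ ψ' hψ hψ' h
  let K := FractionRing A
  let φ : K →+* k := IsFractionRing.lift hψ
  let φ' : K →+* k' := IsFractionRing.lift hψ'
  have hK : CharZero K := φ.charZero
  have e1 : ψ = φ.comp (algebraMap A K) := by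
    apply RingHom.ext
    intro a
    rw [RingHom.comp_apply]
    exact (IsFractionRing.lift_algebraMap hψ a).symm
  have e2 : ψ' = φ'.comp (algebraMap A K) := by
    apply RingHom.ext
    intro a
    rw [RingHom.comp_apply]
    exact (IsFractionRing.lift_algebraMap hψ' a).symm
  rw [e1, ← map_map] at h
  rw [e2, ← map_map]
  have h1 := down φ _ h
  letI : Algebra K k' := φ'.toAlgebra
  exact up (K := K) (L := k') _ (ok_inj D hD (algebraMap A K) (IsFractionRing.injective A K)) h1

end Pool.Agent.Helper90.CX
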