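import Pool.Agent.Helper91.CX.Stm

/-! # Extension of a finite family of distributions -/

set_option autoImplicit false

namespace Pool.Agent.Helper90.CX

open Metric Set Topology Filter
open Pool.Agent.Helper91.CX

/-! ### minors -/

/-- the minor with columns `J` -/
noncomputable def mi {m k : ℕ} (J : Fin k → Fin m) (M : Fin k → Fin m → ℂ) : ℂ :=
  (Matrix.of fun i j => M i (J j)).det

lemma indep_of_mi {m k : ℕ} {J : Fin k → Fin m} {M : Fin k → Fin m → ℂ} (h : mi J M ≠ 0) :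
    LinearIndependent ℂ M := by
  have h1 := Matrix.linearIndependent_rows_of_det_ne_zero h
  refine LinearIndependent.of_comp (LinearMap.funLeft ℂ ℂ J) ?_
  exact h1

lemma exists_mi {m k : ℕ} {M : Fin k → Fin m → ℂ} (h : LinearIndependent ℂ M) :
    ∃ J : Fin k → Fin m, mi J M ≠ 0 := by
  classical
  set A : Matrix (Fin k) (Fin m) ℂ := Matrix.of M with hA
  have hr : A.rank = k := by
    have := LinearIndependent.rank_matrix (M := A) h
    simpa using this
  have hs : Submodule.span ℂ (range A.col) = ⊤ := by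
    apply Submodule.eq_top_of_finrank_eq
    rw [← Matrix.rank_eq_finrank_span_cols, hr]
    simp
  obtain ⟨b, hb, hbs, hbi⟩ := exists_linearIndependent ℂ (range A.col)
  rw [hs] at hbs
  let B : Module.Basis b ℂ (Fin k → ℂ) := Module.Basis.mk hbi (by
    rw [Subtype.range_coe, hbs])
  have : Fintype b := FiniteDimensional.fintypeBasisIndex B
  have hc : Fintype.card b = k := by
    have := Module.finrank_eq_card_basis B
    simpa using this.symm
  let e : Fin k ≃ b := (Fintype.equivFinOfCardEq hc).symm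
  have hJ : ∀ j : Fin k, ∃ l : Fin m, A.col l = (e j : Fin k → ℂ) := fun j => hb (e j).2
  choose J hJ using hJ
  refine ⟨J, ?_⟩
  have h2 : LinearIndependent ℂ (fun j : Fin k => A.col (J j)) := by
    have h3 := hbi.comp e e.injective
    have h4 : (fun j : Fin k => A.col (J j)) = (Subtype.val ∘ e : Fin k → Fin k → ℂ) := by
      funext j
      exact hJ j
    rw [h4]
    exact h3
  have h5 : IsUnit (Matrix.of fun i j => M i (J j)) := by
    rw [← Matrix.linearIndependent_cols_iff_isUnit]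
    exact h2
  unfold mi
  rw [← isUnit_iff_ne_zero, ← Matrix.isUnit_iff_isUnit_det]
  exact h5

lemma diff_prod {n : ℕ} {ι : Type} (s : Finset ι) (f : ι → (Fin n → ℂ) → ℂ)
    {U : Set (Fin n → ℂ)} (h : ∀ i, DifferentiableOn ℂ (f i) U) :
    DifferentiableOn ℂ (fun w => ∏ i ∈ s, f i w) U := by
  classical
  induction s using Finset.induction_on with
  | empty => simp
  | insert a s ha ih =>
    simp only [Finset.prod_insert ha]
    exact (h a).mul ih

lemma mi_diff {n m k : ℕ} {V : (Fin n → ℂ) → Fin k → Fin m → ℂ} {U : Set (Fin n → ℂ)}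
    (hV : ∀ i j, DifferentiableOn ℂ (fun w => V w i j) U) (J : Fin k → Fin m) :
    DifferentiableOn ℂ (fun w => mi J (V w)) U := by
  unfold mi
  simp only [Matrix.det_apply, Matrix.of_apply]
  refine DifferentiableOn.fun_sum fun σ _ => ?_
  refine DifferentiableOn.const_smul ?_ _
  exact diff_prod _ (fun i w => V w (σ i) (J i)) fun i => hV _ _

/-- the distribution extends where a minor does not vanish -/
lemma ext_triv {n m k : ℕ} {V : (Fin n → ℂ) → Fin k → Fin m → ℂ} {U : Set (Fin n → ℂ)}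
    (hU : IsOpen U) (hV : ∀ i j, DifferentiableOn ℂ (fun w => V w i j) U) {J : Fin k → Fin m}
    {w₀ : Fin n → ℂ} (h0 : w₀ ∈ U) (h : mi J (V w₀) ≠ 0) : ExtAt V w₀ := by
  refine ⟨U ∩ (fun w => mi J (V w)) ⁻¹' {0}ᶜ,
    (mi_diff hV J).continuousOn.isOpen_inter_preimage hU isOpen_compl_singleton, ⟨h0, h⟩, V,
    fun i j => (hV i j).mono inter_subset_left, fun w hw => indep_of_mi hw.2, fun w _ _ => rfl⟩

/-- a product of functions which are not locally zero -/
lemma exists_prod (hId : S_Id) {n : ℕ} {τ : Type} (s : Finset τ) (f : τ → (Fin n → ℂ) → ℂ)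
    {B : Set (Fin n → ℂ)} (hB : IsOpen B) (hBc : IsPreconnected B) (hne : B.Nonempty)
    (hf : ∀ t, DifferentiableOn ℂ (f t) B) (h : ∀ t, ∃ w ∈ B, f t w ≠ 0) :
    ∃ w ∈ B, ∀ t ∈ s, f t w ≠ 0 := by
  classical
  induction s using Finset.induction_on with
  | empty =>
    obtain ⟨w, hw⟩ := hne
    exact ⟨w, hw, by simp⟩
  | insert a s ha ih =>
    obtain ⟨w, hw, hws⟩ := ih
    by_contra hcon
    push Not at hcon
    have h1 : ∀ᶠ w' in 𝓝 w, w' ∈ B ∧ ∀ t ∈ s, f t w' ≠ 0 := by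
      refine (hB.eventually_mem hw).and ?_
      rw [Filter.eventually_all_finset]
      intro t ht
      exact ((hf t).continuousOn.continuousAt (hB.mem_nhds hw)).eventually_ne (hws t ht)
    have h2 : f a =ᶠ[𝓝 w] 0 := by
      filter_upwards [h1] with w' hw'
      obtain ⟨t, ht, ht0⟩ := hcon w' hw'.1
      rcases Finset.mem_insert.1 ht with rfl | ht'
      · exact ht0
      · exact absurd ht0 (hw'.2 t ht')
    obtain ⟨w2, hw2, hw20⟩ := h a
    exact hw20 (hId n (f a) B hB hBc (hf a) ⟨w, hw, h2⟩ w2 hw2)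

/-- small circles around the centre of a ball which avoid the zeros -/
lemma exists_circle {n : ℕ} {τ : Type} [Finite τ] (f : τ → (Fin n → ℂ) → ℂ) (x₀ w₁ : Fin n → ℂ)
    {ρ : ℝ} (hw : w₁ ∈ ball x₀ ρ) (hf : ∀ t, DifferentiableOn ℂ (f t) (ball x₀ ρ))
    (h : ∀ t, f t w₁ ≠ 0) :
    ∃ r : ℝ, 0 < r ∧ r < 1 ∧ ∀ ζ : ℂ, ‖ζ‖ = r → ∀ t, f t (x₀ + ζ • (w₁ - x₀)) ≠ 0 := by
  set v : Fin n → ℂ := w₁ - x₀ with hv
  have hρ : 0 < ρ := lt_of_le_of_lt dist_nonneg hw
  have hvn : ‖v‖ < ρ := by rw [hv, ← dist_eq_norm]; exact hw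
  let L : ℂ → (Fin n → ℂ) := fun ζ => x₀ + ζ • v
  have hL : Differentiable ℂ L := by
    intro ζ
    exact (differentiableAt_const _).add (differentiableAt_id.smul_const v)
  set D : Set ℂ := L ⁻¹' (ball x₀ ρ) with hD
  have hDo : IsOpen D := isOpen_ball.preimage hL.continuous
  have hDc : Convex ℝ D := by
    intro a ha b hb s t hs ht hst
    show L (s • a + t • b) ∈ ball x₀ ρ
    have e : L (s • a + t • b) = s • L a + t • L b := by
      show x₀ + (s • a + t • b) • v = s • (x₀ + a • v) + t • (x₀ + b • v)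
      have e1 : x₀ = s • x₀ + t • x₀ := by rw [← add_smul, hst, one_smul]
      conv_lhs => rw [e1]
      simp only [add_smul, smul_add, smul_assoc]
      abel
    rw [e]
    exact (convex_ball x₀ ρ) ha hb hs ht hst
  have h0 : (0 : ℂ) ∈ D := by
    show L 0 ∈ ball x₀ ρ
    simp [L, hρ]
  have h1 : (1 : ℂ) ∈ D := by
    show L 1 ∈ ball x₀ ρ
    have : L 1 = w₁ := by simp [L, hv]
    rw [this]; exact hw
  have hall : ∀ᶠ ζ in 𝓝[≠] (0 : ℂ), ∀ t, f t (L ζ) ≠ 0 := by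
    rw [Filter.eventually_all]
    intro t
    have hg : DifferentiableOn ℂ (fun ζ => f t (L ζ)) D :=
      (hf t).comp hL.differentiableOn (fun ζ hζ => hζ)
    have hga : AnalyticOnNhd ℂ (fun ζ => f t (L ζ)) D := hg.analyticOnNhd hDo
    rcases (hga 0 h0).eventually_eq_zero_or_eventually_ne_zero with hz | hz
    · exfalso
      have := hga.eqOn_zero_of_preconnected_of_eventuallyEq_zero hDc.isPreconnected h0 hz h1
      apply h t
      have e1 : L 1 = w₁ := by simp [L, hv]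
      rw [← e1]
      exact this
    · exact hz
  rw [eventually_nhdsWithin_iff, Metric.eventually_nhds_iff] at hall
  obtain ⟨ε, hε, hall⟩ := hall
  refine ⟨min (ε / 2) (1 / 2), by positivity, by
    have := min_le_right (ε / 2) (1 / 2); linarith, fun ζ hζ t => ?_⟩
  have hpos : 0 < ‖ζ‖ := by rw [hζ]; positivity
  refine hall ?_ (norm_pos_iff.1 hpos) t
  rw [dist_zero_right, hζ]
  have := min_le_left (ε / 2) (1 / 2)
  linarith

/-- P4: a finite family of distributions -/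
theorem ext (hE : S_Ext1) (hId : S_Id) : S_Ext := by
  intro n m τ _ k V U x₀ hU hx₀ hV hfr
  classical
  -- minors which do not vanish identically
  have hJ : ∀ t, ∃ J : Fin (k t) → Fin m, ∃ᶠ w in 𝓝 x₀, mi J (V t w) ≠ 0 := by
    intro t
    by_contra hcon
    push Not at hcon
    have h1 : ∀ᶠ w in 𝓝 x₀, ∀ J : Fin (k t) → Fin m, ¬ (mi J (V t w) ≠ 0) := by
      rw [Filter.eventually_all]
      intro J
      exact Filter.not_frequently.1 (by simpa using hcon J)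
    obtain ⟨w, hw, hw2⟩ := ((hfr t).and_eventually h1).exists
    obtain ⟨J, hJ⟩ := exists_mi hw
    exact hw2 J hJ
  choose J hJ using hJ
  set f : τ → (Fin n → ℂ) → ℂ := fun t w => mi (J t) (V t w) with hf
  have hfd : ∀ t, DifferentiableOn ℂ (f t) U := fun t => mi_diff (hV t) (J t)
  obtain ⟨ρ, hρ, hρU⟩ := Metric.isOpen_iff.1 hU x₀ hx₀
  -- a point where no minor vanishes
  have := Fintype.ofFinite τ
  obtain ⟨w₁, hw₁, hne⟩ := exists_prod hId Finset.univ f isOpen_ball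
    (convex_ball x₀ ρ).isPreconnected ⟨x₀, mem_ball_self hρ⟩ (fun t => (hfd t).mono hρU)
    (fun t => by
      obtain ⟨w, hw, hw2⟩ := ((hJ t).and_eventually (ball_mem_nhds x₀ hρ)).exists
      exact ⟨w, hw2, hw⟩)
  obtain ⟨r, hr, hr1, hcirc⟩ := exists_circle f x₀ w₁ hw₁ (fun t => (hfd t).mono hρU)
    (fun t => hne t (Finset.mem_univ t))
  set v : Fin n → ℂ := w₁ - x₀ with hv
  have hvn : ‖v‖ < ρ := by rw [hv, ← dist_eq_norm]; exact hw₁
  have hrv : r * ‖v‖ < ρ := by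
    have : r * ‖v‖ ≤ 1 * ‖v‖ := by gcongr
    linarith
  -- the discs stay in the ball
  have hdisc : ∀ z ∈ ball x₀ (ρ - r * ‖v‖), ∀ ζ : ℂ, ‖ζ‖ ≤ r → z + ζ • v ∈ ball x₀ ρ := by
    intro z hz ζ hζ
    rw [mem_ball, dist_eq_norm] at hz ⊢
    have e : z + ζ • v - x₀ = (z - x₀) + ζ • v := by abel
    rw [e]
    calc ‖(z - x₀) + ζ • v‖ ≤ ‖z - x₀‖ + ‖ζ • v‖ := norm_add_le _ _
      _ ≤ ‖z - x₀‖ + r * ‖v‖ := by rw [norm_smul]; gcongr
      _ < ρ := by linarith
  -- the circles avoid the zeros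
  have hev : ∀ᶠ z in 𝓝 x₀, ∀ ζ ∈ sphere (0 : ℂ) r, ∀ t, f t (z + ζ • v) ≠ 0 := by
    refine (isCompact_sphere (0 : ℂ) r).eventually_forall_of_forall_eventually fun ζ hζ => ?_
    rw [Filter.eventually_all]
    intro t
    have hζ' : ‖ζ‖ = r := by simpa using hζ
    have h1 : x₀ + ζ • v ∈ ball x₀ ρ :=
      hdisc x₀ (mem_ball_self (by linarith)) ζ hζ'.le
    have h2 : ContinuousAt (f t) (x₀ + ζ • v) :=
      ((hfd t).mono hρU).continuousOn.continuousAt (isOpen_ball.mem_nhds h1)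
    have h3 : ContinuousAt (fun p : (Fin n → ℂ) × ℂ => p.1 + p.2 • v) (x₀, ζ) := by
      fun_prop
    have h4 : ContinuousAt (fun p : (Fin n → ℂ) × ℂ => f t (p.1 + p.2 • v)) (x₀, ζ) :=
      ContinuousAt.comp (g := f t) (f := fun p : (Fin n → ℂ) × ℂ => p.1 + p.2 • v) h2 h3
    exact h4.eventually_ne (hcirc ζ hζ' t)
  obtain ⟨δ₀, hδ₀, hδ₀2⟩ := Metric.eventually_nhds_iff_ball.1 hev
  set δ : ℝ := min δ₀ (ρ - r * ‖v‖) with hδdef
  have hδ : 0 < δ := lt_min hδ₀ (by linarith)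
  have hb1 : ball x₀ δ ⊆ ball x₀ (ρ - r * ‖v‖) := ball_subset_ball (min_le_right _ _)
  have hb2 : ball x₀ δ ⊆ ball x₀ δ₀ := ball_subset_ball (min_le_left _ _)
  have hUall : ∀ z ∈ ball x₀ δ, ∀ ζ : ℂ, ‖ζ‖ ≤ r → z + ζ • v ∈ U :=
    fun z hz ζ hζ => hρU (hdisc z (hb1 hz) ζ hζ)
  have hcall : ∀ z ∈ ball x₀ δ, ∀ ζ : ℂ, ‖ζ‖ = r → ∀ t, f t (z + ζ • v) ≠ 0 :=
    fun z hz ζ hζ t => hδ₀2 z (hb2 hz) ζ (by simpa using hζ) t
  -- density
  have hdens : ∀ (s : Finset τ) (O : Set (Fin n → ℂ)), IsOpen O → O.Nonempty → O ⊆ ball x₀ δ →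
      ∃ O' : Set (Fin n → ℂ), IsOpen O' ∧ O'.Nonempty ∧ O' ⊆ O ∧
        ∀ t ∈ s, ∀ z ∈ O', ∀ ζ : ℂ, ‖ζ‖ < r → ExtAt (V t) (z + ζ • v) := by
    intro s
    induction s using Finset.induction_on with
    | empty => intro O hO hne _; exact ⟨O, hO, hne, Subset.rfl, by simp⟩
    | insert a s ha ih =>
      intro O hO hne hOb
      obtain ⟨O₁, hO₁, hne₁, hsub₁, hext₁⟩ := ih O hO hne hOb
      obtain ⟨O₂, hO₂, hne₂, hsub₂, hext₂⟩ := hE n m (k a) (V a) U (J a) x₀ v r δ hU hr hδ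
        (hV a) hUall (fun z hz ζ hζ => hcall z hz ζ hζ a) O₁ hO₁ hne₁ (hsub₁.trans hOb)
      refine ⟨O₂, hO₂, hne₂, hsub₂.trans hsub₁, fun t ht z hz ζ hζ => ?_⟩
      rcases Finset.mem_insert.1 ht with rfl | ht'
      · exact hext₂ z hz ζ hζ
      · exact hext₁ t ht' z (hsub₂ hz) ζ hζ
  refine ⟨v, r, δ, hr, hδ, hUall, fun z hz ζ hζ t => indep_of_mi (hcall z hz ζ hζ t),
    {z | z ∈ ball x₀ δ ∧ ∀ ζ : ℂ, ‖ζ‖ ≤ r → ∀ t, ExtAt (V t) (z + ζ • v)}, fun z hz => hz.1,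
    fun x hx => ?_, fun z hz => hz.2⟩
  rw [_root_.mem_closure_iff]
  intro o ho hxo
  obtain ⟨O', hO', ⟨y, hy⟩, hsub, hext⟩ := hdens Finset.univ (o ∩ ball x₀ δ)
    (ho.inter isOpen_ball) ⟨x, hxo, hx⟩ inter_subset_right
  refine ⟨y, (hsub hy).1, (hsub hy).2, fun ζ hζ t => ?_⟩
  rcases hζ.lt_or_eq with hlt | heq
  · exact hext t (Finset.mem_univ t) y hy ζ hlt
  · exact ext_triv hU (hV t) (J := J t) (hUall y (hsub hy).2 ζ hζ)
      (hcall y (hsub hy).2 ζ heq t)

end Pool.Agent.Helper90.CX
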